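import Mathlib
import Pool.Agent.H64.Pent.Defs
import Pool.Agent.H98.TC.Main

set_option autoImplicit false

/-!
The chain of circuits of a faithful circuit cover of `G - e` in a critical contra pair, in the
language of the numberings `x`, `y`, `p` (MP_a46c6f_co).
-/

namespace Pool.Agent.H77.GC

open SimpleGraph Pool.Agent.H5.Goddyn Pool.Agent.H98.TC Pool.Agent.H64.Pent

/-- `c i`, `d j` are the numbers of the members of a chain of `m + 1` circuits of `G - e` through the
edges `x i, x (i + 1)` and `y j, y (j + 1)`. -/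
structure ChainCol {n : ℕ} (p : Equiv.Perm (ZMod n)) (e : ZMod n) (m : ℕ)
    (c d : ZMod n → ℕ) : Prop where
  cx : c (e - 1) = 0 ∧ c e = 0
  cy : d (p e - 1) = m ∧ d (p e) = m
  /-- the two members through the matching edge `i ≠ e` are consecutive -/
  loc : ∀ i, i ≠ e → ∃ j, j < m ∧
    ((c (i - 1) = j ∧ c i = j + 1) ∨ (c (i - 1) = j + 1 ∧ c i = j)) ∧
    ((d (p i - 1) = j ∧ d (p i) = j + 1) ∨ (d (p i - 1) = j + 1 ∧ d (p i) = j))
  /-- consecutive members meet -/
  lev : ∀ j, j < m → ∃ i, i ≠ e ∧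
    ((c (i - 1) = j ∧ c i = j + 1) ∨ (c (i - 1) = j + 1 ∧ c i = j)) ∧
    ((d (p i - 1) = j ∧ d (p i) = j + 1) ∨ (d (p i - 1) = j + 1 ∧ d (p i) = j))
  /-- every member is connected -/
  conn : ∀ j, j ≤ m → ∀ s t : ZMod n → ZMod 2,
    (∀ i, i ≠ e → ∀ a b, (a = i - 1 ∨ a = i) → (b = p i - 1 ∨ b = p i) → c a = j → d b = j →
      s a = t b) →
    (j = 0 → s (e - 1) = s e) → (j = m → t (p e - 1) = t (p e)) →
    ∃ v, (∀ i, c i = j → s i = v) ∧ ∀ i, d i = j → t i = v

theorem exists_chainCol_aux {V : Type*} [Finite V] (G : SimpleGraph V) (M C₁ C₂ : G.Subgraph)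
    (h : IsPermutationGraph G M C₁ C₂) {n : ℕ}
    (hn : 3 ≤ n) (x y : ZMod n → V) (p : Equiv.Perm (ZMod n)) (hx : Numb C₁ x) (hy : Numb C₂ y)
    (hM : ∀ i, M.Adj (x i) (y (p i))) (e : ZMod n) (F : Set (del G (x e) (y (p e))).Subgraph)
    (hF : IsFCC (del G (x e) (y (p e))) (wt M) F) (m : ℕ) (D : ℕ → (del G (x e) (y (p e))).Subgraph)
    (hm1 : 1 ≤ m) (hinj : Set.InjOn D {i | i ≤ m}) (hD : F = D '' {i | i ≤ m})
    (hx0 : x e ∈ (D 0).verts) (hym : y (p e) ∈ (D m).verts)
    (hch : ∀ i ≤ m, ∀ j ≤ m, i < j → (¬ Disjoint (D i).verts (D j).verts ↔ j = i + 1)) :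
    ∃ c d, ChainCol p e m c d := by
  classical
  have : NeZero n := ⟨by omega⟩
  have ix := hx.1
  have iy := hy.1
  have mx : ∀ i, x i ∈ C₁.verts := fun i => by rw [← hx.2.1]; exact ⟨i, rfl⟩
  have my : ∀ j, y j ∈ C₂.verts := fun j => by rw [← hy.2.1]; exact ⟨j, rfl⟩
  have hxy : ∀ i j, x i ≠ y j := by
    intro i j hij
    exact Set.disjoint_left.1 h.disjoint (mx i) (hij ▸ my j)
  have hne1 : ∀ i : ZMod n, i + 1 ≠ i := by
    intro i h0
    have h1 : (1 : ZMod n) = 0 := by simpa using h0
    have h2 : ((1 : ℕ) : ZMod n) = 0 := by simpa using h1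
    rw [ZMod.natCast_eq_zero_iff] at h2
    exact absurd (Nat.le_of_dvd (by norm_num) h2) (by omega)
  have hcov : ∀ v, (∃ i, v = x i) ∨ ∃ i, v = y (p i) := by
    intro v
    rcases cover' h v with hv | hv
    · rw [← hx.2.1] at hv
      obtain ⟨i, hi⟩ := hv
      exact Or.inl ⟨i, hi.symm⟩
    · rw [← hy.2.1] at hv
      obtain ⟨j, hj⟩ := hv
      exact Or.inr ⟨p.symm j, by rw [Equiv.apply_symm_apply]; exact hj.symm⟩
  have hmem : ∀ k, k ≤ m → D k ∈ F := fun k hk => by rw [hD]; exact ⟨k, hk, rfl⟩
  have hCx : ∀ i, C₁.Adj (x i) (x (i + 1)) := fun i => (hx.2.2 i _).2 (Or.inr rfl)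
  have hCy : ∀ j, C₂.Adj (y j) (y (j + 1)) := fun j => (hy.2.2 j _).2 (Or.inr rfl)
  have hGx : ∀ i, G.Adj (x i) (x (i + 1)) ∧ ¬ M.Adj (x i) (x (i + 1)) := fun i =>
    (h.union _ _).2 (Or.inl (hCx i))
  have hGy : ∀ i, G.Adj (y i) (y (i + 1)) ∧ ¬ M.Adj (y i) (y (i + 1)) := fun i =>
    (h.union _ _).2 (Or.inr (hCy i))
  have hHx : ∀ i, (del G (x e) (y (p e))).Adj (x i) (x (i + 1)) := by
    intro i
    rw [SimpleGraph.deleteEdges_adj]
    refine ⟨(hGx i).1, fun hh => ?_⟩
    rcases Sym2.eq_iff.1 (show s(x i, x (i + 1)) = s(x e, y (p e)) from hh) with ⟨_, h2⟩ | ⟨h2, _⟩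
    · exact hxy _ _ h2
    · exact hxy _ _ h2
  have hHy : ∀ i, (del G (x e) (y (p e))).Adj (y i) (y (i + 1)) := by
    intro i
    rw [SimpleGraph.deleteEdges_adj]
    refine ⟨(hGy i).1, fun hh => ?_⟩
    rcases Sym2.eq_iff.1 (show s(y i, y (i + 1)) = s(x e, y (p e)) from hh) with ⟨h2, _⟩ | ⟨_, h2⟩
    · exact hxy _ _ h2.symm
    · exact hxy _ _ h2.symm
  have hex : ∀ u v, (del G (x e) (y (p e))).Adj u v → ¬ M.Adj u v →
      ∃ k, k ≤ m ∧ ∀ k' ≤ m, (D k').Adj u v ↔ k' = k := by
    intro u v huv huM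
    obtain ⟨A, hA, h1, h2⟩ := one_member G M (x e) (y (p e)) F hF u v huv huM
    rw [hD] at hA
    obtain ⟨k, hk, rfl⟩ := hA
    refine ⟨k, hk, fun k' hk' => ⟨fun h3 => ?_, fun h3 => ?_⟩⟩
    · exact hinj hk' hk (h2 _ (hmem k' hk') h3)
    · rw [h3]; exact h1
  choose c hc1 hc2 using fun i => hex (x i) (x (i + 1)) (hHx i) (hGx i).2
  choose d hd1 hd2 using fun i => hex (y i) (y (i + 1)) (hHy i) (hGy i).2
  have hc2' : ∀ i, ∀ k' ≤ m, (D k').Adj (x i) (x (i - 1)) ↔ k' = c (i - 1) := by
    intro i k' hk'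
    have := hc2 (i - 1) k' hk'
    rw [sub_add_cancel] at this
    rw [← this]
    exact ⟨fun hh => hh.symm, fun hh => hh.symm⟩
  have hd2' : ∀ i, ∀ k' ≤ m, (D k').Adj (y i) (y (i - 1)) ↔ k' = d (i - 1) := by
    intro i k' hk'
    have := hd2 (i - 1) k' hk'
    rw [sub_add_cancel] at this
    rw [← this]
    exact ⟨fun hh => hh.symm, fun hh => hh.symm⟩
  have hMe : M.Adj (x e) (y (p e)) := hM e
  -- uniqueness of matching neighbours
  have hMx : ∀ i u, M.Adj (x i) u → u = y (p i) := by
    intro i u hu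
    obtain ⟨w, hw, huniq⟩ := h.perfect.1 (h.perfect.2 (x i))
    exact (huniq u hu).trans (huniq _ (hM i)).symm
  have hMy : ∀ i u, M.Adj (y (p i)) u → u = x i := by
    intro i u hu
    obtain ⟨w, hw, huniq⟩ := h.perfect.1 (h.perfect.2 (y (p i)))
    exact (huniq u hu).trans (huniq _ (hM i).symm).symm
  -- neighbours outside M
  have hnx : ∀ i u, G.Adj (x i) u → ¬ M.Adj (x i) u → u = x (i - 1) ∨ u = x (i + 1) := by
    intro i u h1 h2
    rcases (h.union _ _).1 ⟨h1, h2⟩ with h3 | h3
    · exact (hx.2.2 i u).1 h3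
    · exact absurd (C₂.edge_vert h3) (Set.disjoint_left.1 h.disjoint (mx i))
  have hny : ∀ i u, G.Adj (y i) u → ¬ M.Adj (y i) u → u = y (i - 1) ∨ u = y (i + 1) := by
    intro i u h1 h2
    rcases (h.union _ _).1 ⟨h1, h2⟩ with h3 | h3
    · exact absurd (my i) (Set.disjoint_left.1 h.disjoint (C₁.edge_vert h3))
    · exact (hy.2.2 i u).1 h3
  -- the matching edge i in member k
  have hlx : ∀ i, i ≠ e → ∀ k ≤ m, x i ∈ (D k).verts → (c (i - 1) = k ∨ c i = k) := by
    intro i hi k hk hv
    obtain ⟨m', a, b, hm', ha, haM, hb, hbM, hab, hall, A, hA, B, hB, hAB, hAn, hBn, huq⟩ :=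
      local2 G M C₁ C₂ h (x e) (y (p e)) hMe F hF (x i) (fun hh => hi (ix hh)) (hxy _ _)
    have key : ∀ (E : (del G (x e) (y (p e))).Subgraph) (a' : V), D k = E →
        E.neighborSet (x i) = {m', a'} → G.Adj (x i) a' → ¬ M.Adj (x i) a' →
        (c (i - 1) = k ∨ c i = k) := by
      intro E a' hE hn' h1 h2
      have h3 : (D k).Adj (x i) a' := by
        rw [hE]
        have : a' ∈ E.neighborSet (x i) := by rw [hn']; simp
        exact this
      rcases hnx i a' h1 h2 with h4 | h4
      · rw [h4] at h3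
        exact Or.inl ((hc2' i k hk).1 h3).symm
      · rw [h4] at h3
        exact Or.inr ((hc2 i k hk).1 h3).symm
    rcases huq (D k) (hmem k hk) hv with h1 | h1
    · exact key A a h1 hAn ha haM
    · exact key B b h1 hBn hb hbM
  have hly : ∀ i, i ≠ e → ∀ k ≤ m, y (p i) ∈ (D k).verts → (d (p i - 1) = k ∨ d (p i) = k) := by
    intro i hi k hk hv
    obtain ⟨m', a, b, hm', ha, haM, hb, hbM, hab, hall, A, hA, B, hB, hAB, hAn, hBn, huq⟩ :=
      local2 G M C₁ C₂ h (x e) (y (p e)) hMe F hF (y (p i)) (fun hh => hxy _ _ hh.symm)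
        (fun hh => hi (p.injective (iy hh)))
    have key : ∀ (E : (del G (x e) (y (p e))).Subgraph) (a' : V), D k = E →
        E.neighborSet (y (p i)) = {m', a'} → G.Adj (y (p i)) a' → ¬ M.Adj (y (p i)) a' →
        (d (p i - 1) = k ∨ d (p i) = k) := by
      intro E a' hE hn' h1 h2
      have h3 : (D k).Adj (y (p i)) a' := by
        rw [hE]
        have : a' ∈ E.neighborSet (y (p i)) := by rw [hn']; simp
        exact this
      rcases hny (p i) a' h1 h2 with h4 | h4
      · rw [h4] at h3
        exact Or.inl ((hd2' (p i) k hk).1 h3).symm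
      · rw [h4] at h3
        exact Or.inr ((hd2 (p i) k hk).1 h3).symm
    rcases huq (D k) (hmem k hk) hv with h1 | h1
    · exact key A a h1 hAn ha haM
    · exact key B b h1 hBn hb hbM
  -- members at i contain the matching edge
  have hMadj : ∀ i, i ≠ e → ∀ k ≤ m, (x i ∈ (D k).verts ↔ y (p i) ∈ (D k).verts) := by
    intro i hi k hk
    constructor
    · intro hv
      obtain ⟨m', a, b, hm', ha, haM, hb, hbM, hab, hall, A, hA, B, hB, hAB, hAn, hBn, huq⟩ :=
        local2 G M C₁ C₂ h (x e) (y (p e)) hMe F hF (x i) (fun hh => hi (ix hh)) (hxy _ _)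
      have hmm : m' = y (p i) := hMx i m' hm'
      rcases huq (D k) (hmem k hk) hv with h1 | h1
      · have : m' ∈ A.neighborSet (x i) := by rw [hAn]; simp
        rw [← h1, hmm] at this
        exact (D k).edge_vert (show (D k).Adj (x i) (y (p i)) from this).symm
      · have : m' ∈ B.neighborSet (x i) := by rw [hBn]; simp
        rw [← h1, hmm] at this
        exact (D k).edge_vert (show (D k).Adj (x i) (y (p i)) from this).symm
    · intro hv
      obtain ⟨m', a, b, hm', ha, haM, hb, hbM, hab, hall, A, hA, B, hB, hAB, hAn, hBn, huq⟩ :=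
        local2 G M C₁ C₂ h (x e) (y (p e)) hMe F hF (y (p i)) (fun hh => hxy _ _ hh.symm)
          (fun hh => hi (p.injective (iy hh)))
      have hmm : m' = x i := hMy i m' hm'
      rcases huq (D k) (hmem k hk) hv with h1 | h1
      · have : m' ∈ A.neighborSet (y (p i)) := by rw [hAn]; simp
        rw [← h1, hmm] at this
        exact (D k).edge_vert (show (D k).Adj (y (p i)) (x i) from this).symm
      · have : m' ∈ B.neighborSet (y (p i)) := by rw [hBn]; simp
        rw [← h1, hmm] at this
        exact (D k).edge_vert (show (D k).Adj (y (p i)) (x i) from this).symm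
  have hcv : ∀ i, x i ∈ (D (c i)).verts ∧ x i ∈ (D (c (i - 1))).verts := by
    intro i
    exact ⟨(D (c i)).edge_vert ((hc2 i _ (hc1 i)).2 rfl),
      (D (c (i - 1))).edge_vert ((hc2' i _ (hc1 _)).2 rfl)⟩
  have hdv : ∀ i, y i ∈ (D (d i)).verts ∧ y i ∈ (D (d (i - 1))).verts := by
    intro i
    exact ⟨(D (d i)).edge_vert ((hd2 i _ (hd1 i)).2 rfl),
      (D (d (i - 1))).edge_vert ((hd2' i _ (hd1 _)).2 rfl)⟩
  -- two different classes at i ≠ e
  have hcne : ∀ i, i ≠ e → c (i - 1) ≠ c i := by
    intro i hi heq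
    obtain ⟨m', a, b, hm', ha, haM, hb, hbM, hab, hall, A, hA, B, hB, hAB, hAn, hBn, huq⟩ :=
      local2 G M C₁ C₂ h (x e) (y (p e)) hMe F hF (x i) (fun hh => hi (ix hh)) (hxy _ _)
    have hAa : A.Adj (x i) a := by
      have : a ∈ A.neighborSet (x i) := by rw [hAn]; simp
      exact this
    have hBb : B.Adj (x i) b := by
      have : b ∈ B.neighborSet (x i) := by rw [hBn]; simp
      exact this
    rw [hD] at hA hB
    obtain ⟨k, hk, rfl⟩ := hA
    obtain ⟨l, hl, rfl⟩ := hB
    have e1 : k = c (i - 1) := by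
      rcases hnx i a ha haM with h4 | h4
      · rw [h4] at hAa
        exact (hc2' i k hk).1 hAa
      · rw [h4] at hAa
        rw [heq]
        exact (hc2 i k hk).1 hAa
    have e2 : l = c (i - 1) := by
      rcases hnx i b hb hbM with h4 | h4
      · rw [h4] at hBb
        exact (hc2' i l hl).1 hBb
      · rw [h4] at hBb
        rw [heq]
        exact (hc2 i l hl).1 hBb
    exact hAB (by rw [e1, e2])
  have hdne : ∀ i, i ≠ e → d (p i - 1) ≠ d (p i) := by
    intro i hi heq
    obtain ⟨m', a, b, hm', ha, haM, hb, hbM, hab, hall, A, hA, B, hB, hAB, hAn, hBn, huq⟩ :=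
      local2 G M C₁ C₂ h (x e) (y (p e)) hMe F hF (y (p i)) (fun hh => hxy _ _ hh.symm)
        (fun hh => hi (p.injective (iy hh)))
    have hAa : A.Adj (y (p i)) a := by
      have : a ∈ A.neighborSet (y (p i)) := by rw [hAn]; simp
      exact this
    have hBb : B.Adj (y (p i)) b := by
      have : b ∈ B.neighborSet (y (p i)) := by rw [hBn]; simp
      exact this
    rw [hD] at hA hB
    obtain ⟨k, hk, rfl⟩ := hA
    obtain ⟨l, hl, rfl⟩ := hB
    have e1 : k = d (p i - 1) := by
      rcases hny (p i) a ha haM with h4 | h4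
      · rw [h4] at hAa
        exact (hd2' (p i) k hk).1 hAa
      · rw [h4] at hAa
        rw [heq]
        exact (hd2 (p i) k hk).1 hAa
    have e2 : l = d (p i - 1) := by
      rcases hny (p i) b hb hbM with h4 | h4
      · rw [h4] at hBb
        exact (hd2' (p i) l hl).1 hBb
      · rw [h4] at hBb
        rw [heq]
        exact (hd2 (p i) l hl).1 hBb
    exact hAB (by rw [e1, e2])
  -- members meeting are consecutive
  have hcons : ∀ k ≤ m, ∀ l ≤ m, k ≠ l → ∀ v, v ∈ (D k).verts → v ∈ (D l).verts →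
      k = l + 1 ∨ l = k + 1 := by
    intro k hk l hl hkl v h1 h2
    rcases lt_or_gt_of_ne hkl with h3 | h3
    · right
      exact (hch k hk l hl h3).1 (Set.not_disjoint_iff.2 ⟨v, h1, h2⟩)
    · left
      exact (hch l hl k hk h3).1 (Set.not_disjoint_iff.2 ⟨v, h2, h1⟩)
  have hpair : ∀ i, i ≠ e → ∀ j, j < m → x i ∈ (D j).verts → x i ∈ (D (j + 1)).verts →
      ((c (i - 1) = j ∧ c i = j + 1) ∨ (c (i - 1) = j + 1 ∧ c i = j)) ∧
      ((d (p i - 1) = j ∧ d (p i) = j + 1) ∨ (d (p i - 1) = j + 1 ∧ d (p i) = j)) := by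
    intro i hi j hj h1 h2
    have a1 := hlx i hi j hj.le h1
    have a2 := hlx i hi (j + 1) hj h2
    have b1 := hly i hi j hj.le ((hMadj i hi j hj.le).1 h1)
    have b2 := hly i hi (j + 1) hj ((hMadj i hi (j + 1) hj).1 h2)
    constructor
    · omega
    · omega
  refine ⟨c, d, ?_, ?_, ?_, ?_, ?_⟩
  · -- cx
    obtain ⟨A, hA, hzA, hall, hu⟩ := local1 G M C₁ C₂ h (x e) (y (p e)) hMe F hF (x e) (Or.inl rfl)
    have hA0 : D 0 = A := hu (D 0) (hmem 0 (by omega)) hx0
    rw [← hA0] at hall
    have h1 := hall (x (e + 1)) (hGx e).1 (hGx e).2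
    have h2 : (D 0).Adj (x e) (x (e - 1)) := by
      have h3 := hGx (e - 1)
      rw [sub_add_cancel] at h3
      exact hall (x (e - 1)) h3.1.symm (fun hh => h3.2 hh.symm)
    exact ⟨((hc2' e 0 (by omega)).1 h2).symm, ((hc2 e 0 (by omega)).1 h1).symm⟩
  · -- cy
    obtain ⟨A, hA, hzA, hall, hu⟩ := local1 G M C₁ C₂ h (x e) (y (p e)) hMe F hF (y (p e))
      (Or.inr rfl)
    have hA0 : D m = A := hu (D m) (hmem m le_rfl) hym
    rw [← hA0] at hall
    have h1 := hall (y (p e + 1)) (hGy (p e)).1 (hGy (p e)).2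
    have h2 : (D m).Adj (y (p e)) (y (p e - 1)) := by
      have h3 := hGy (p e - 1)
      rw [sub_add_cancel] at h3
      exact hall (y (p e - 1)) h3.1.symm (fun hh => h3.2 hh.symm)
    exact ⟨((hd2' (p e) m le_rfl).1 h2).symm, ((hd2 (p e) m le_rfl).1 h1).symm⟩
  · -- loc
    intro i hi
    have h1 := hcne i hi
    have h2 := hcons _ (hc1 (i - 1)) _ (hc1 i) h1 (x i) (hcv i).2 (hcv i).1
    rcases h2 with h2 | h2
    · refine ⟨c i, by have := hc1 (i - 1); omega, ?_⟩
      exact hpair i hi (c i) (by have := hc1 (i - 1); omega) (hcv i).1 (by rw [← h2]; exact (hcv i).2)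
    · refine ⟨c (i - 1), by have := hc1 i; omega, ?_⟩
      exact hpair i hi (c (i - 1)) (by have := hc1 i; omega) (hcv i).2
        (by rw [← h2]; exact (hcv i).1)
  · -- lev
    intro j hj
    obtain ⟨v, h1, h2⟩ := Set.not_disjoint_iff.1 ((hch j hj.le (j + 1) hj (by omega)).2 rfl)
    have hve : v ≠ x e := by
      rintro rfl
      obtain ⟨A, hA, hzA, hall, hu⟩ := local1 G M C₁ C₂ h (x e) (y (p e)) hMe F hF (x e)
        (Or.inl rfl)
      have e1 := hu (D j) (hmem j hj.le) h1
      have e2 := hu (D (j + 1)) (hmem (j + 1) hj) h2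
      have := hinj (show j ∈ {i | i ≤ m} from hj.le) (show j + 1 ∈ {i | i ≤ m} from hj)
        (e1.trans e2.symm)
      omega
    have hve' : v ≠ y (p e) := by
      rintro rfl
      obtain ⟨A, hA, hzA, hall, hu⟩ := local1 G M C₁ C₂ h (x e) (y (p e)) hMe F hF (y (p e))
        (Or.inr rfl)
      have e1 := hu (D j) (hmem j hj.le) h1
      have e2 := hu (D (j + 1)) (hmem (j + 1) hj) h2
      have := hinj (show j ∈ {i | i ≤ m} from hj.le) (show j + 1 ∈ {i | i ≤ m} from hj)
        (e1.trans e2.symm)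
      omega
    rcases hcov v with ⟨i, rfl⟩ | ⟨i, rfl⟩
    · have hi : i ≠ e := fun hh => hve (by rw [hh])
      exact ⟨i, hi, hpair i hi j hj h1 h2⟩
    · have hi : i ≠ e := fun hh => hve' (by rw [hh])
      exact ⟨i, hi, hpair i hi j hj ((hMadj i hi j hj.le).2 h1) ((hMadj i hi (j + 1) hj).2 h2)⟩
  · -- conn
    intro j hj s t hst hs0 htm
    have hcon := (hF.1 (D j) (hmem j hj)).1
    -- the predicate
    let Φ : V → ZMod 2 → Prop := fun v w =>
      (∀ i, v = x i → ∀ a, (a = i - 1 ∨ a = i) → c a = j → s a = w) ∧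
      (∀ i, v = y (p i) → ∀ b, (b = p i - 1 ∨ b = p i) → d b = j → t b = w)
    -- all class j edges at a vertex agree
    have hsame : ∀ i, ∀ a a', (a = i - 1 ∨ a = i) → (a' = i - 1 ∨ a' = i) → c a = j → c a' = j →
        s a = s a' := by
      intro i a a' ha ha' h1 h2
      by_cases hi : i = e
      · subst hi
        have hj0 : j = 0 := by
          obtain ⟨A, hA, hzA, hall, hu⟩ := local1 G M C₁ C₂ h (x i) (y (p i)) hMe F hF (x i)
            (Or.inl rfl)
          have e0 := hu (D 0) (hmem 0 (by omega)) hx0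
          have e1 : D j = A := by
            refine hu (D j) (hmem j hj) ?_
            rcases ha with rfl | rfl
            · rw [← h1]; exact (hcv i).2
            · rw [← h1]; exact (hcv a).1
          exact hinj (show j ∈ {i | i ≤ m} from hj) (show 0 ∈ {i | i ≤ m} from Nat.zero_le _)
            (e1.trans e0.symm)
        have h3 := hs0 hj0
        rcases ha with rfl | rfl <;> rcases ha' with rfl | rfl
        · rfl
        · exact h3
        · exact h3.symm
        · rfl
      · have h3 := hcne i hi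
        rcases ha with rfl | rfl <;> rcases ha' with rfl | rfl
        · rfl
        · exact absurd (h1.trans h2.symm) h3
        · exact absurd (h2.trans h1.symm) h3
        · rfl
    have hsame' : ∀ i, ∀ b b', (b = p i - 1 ∨ b = p i) → (b' = p i - 1 ∨ b' = p i) → d b = j →
        d b' = j → t b = t b' := by
      intro i b b' hb hb' h1 h2
      by_cases hi : i = e
      · subst hi
        have hj0 : j = m := by
          obtain ⟨A, hA, hzA, hall, hu⟩ := local1 G M C₁ C₂ h (x i) (y (p i)) hMe F hF (y (p i))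
            (Or.inr rfl)
          have e0 := hu (D m) (hmem m le_rfl) hym
          have e1 : D j = A := by
            refine hu (D j) (hmem j hj) ?_
            rcases hb with rfl | rfl
            · rw [← h1]; exact (hdv (p i)).2
            · rw [← h1]; exact (hdv (p i)).1
          exact hinj (show j ∈ {i | i ≤ m} from hj) (show m ∈ {i | i ≤ m} from le_refl m)
            (e1.trans e0.symm)
        have h3 := htm hj0
        rcases hb with rfl | rfl <;> rcases hb' with rfl | rfl
        · rfl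
        · exact h3
        · exact h3.symm
        · rfl
      · have h3 := hdne i hi
        rcases hb with rfl | rfl <;> rcases hb' with rfl | rfl
        · rfl
        · exact absurd (h1.trans h2.symm) h3
        · exact absurd (h2.trans h1.symm) h3
        · rfl
    have hstep : ∀ u v w, (D j).Adj u v → Φ u w → Φ v w := by
      intro u v w huv hu
      have hGuv := (D j).adj_sub huv
      rw [SimpleGraph.deleteEdges_adj] at hGuv
      by_cases hMuv : M.Adj u v
      · -- matching edge
        have huv' : ∃ i, i ≠ e ∧ ((u = x i ∧ v = y (p i)) ∨ (u = y (p i) ∧ v = x i)) := by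
          rcases hcov u with ⟨i, rfl⟩ | ⟨i, rfl⟩
          · have hv := hMx i v hMuv
            subst hv
            refine ⟨i, ?_, Or.inl ⟨rfl, rfl⟩⟩
            rintro rfl
            exact hGuv.2 rfl
          · have hv := hMy i v hMuv
            subst hv
            refine ⟨i, ?_, Or.inr ⟨rfl, rfl⟩⟩
            rintro rfl
            exact hGuv.2 (Sym2.eq_swap)
        obtain ⟨i, hi, ⟨rfl, rfl⟩ | ⟨rfl, rfl⟩⟩ := huv'
        · have hv := (D j).edge_vert huv
          have h1 := hlx i hi j hj hv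
          constructor
          · intro k hk
            exact absurd hk.symm (hxy _ _)
          · intro k hk b hb hdb
            have hik : i = k := p.injective (iy hk)
            subst hik
            rcases h1 with h1 | h1
            · rw [← hu.1 i rfl _ (Or.inl rfl) h1]
              exact (hst i hi _ b (Or.inl rfl) hb h1 hdb).symm
            · rw [← hu.1 i rfl _ (Or.inr rfl) h1]
              exact (hst i hi _ b (Or.inr rfl) hb h1 hdb).symm
        · have hv := (D j).edge_vert huv
          have h1 := hly i hi j hj hv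
          constructor
          · intro k hk a ha hca
            have hik : i = k := ix hk
            subst hik
            rcases h1 with h1 | h1
            · rw [← hu.2 i rfl _ (Or.inl rfl) h1]
              exact hst i hi a _ ha (Or.inl rfl) hca h1
            · rw [← hu.2 i rfl _ (Or.inr rfl) h1]
              exact hst i hi a _ ha (Or.inr rfl) hca h1
          · intro k hk
            exact absurd hk (hxy _ _)
      · rcases hcov u with ⟨i, rfl⟩ | ⟨i, rfl⟩
        · rcases hnx i v hGuv.1 hMuv with rfl | rfl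
          · have h1 := (hc2' i j hj).1 huv
            have h2 := hu.1 i rfl _ (Or.inl rfl) h1.symm
            constructor
            · intro k hk a ha hca
              have hik : i - 1 = k := ix hk
              subst hik
              rw [← h2]
              exact hsame (i - 1) a (i - 1) ha (Or.inr rfl) hca h1.symm
            · intro k hk
              exact absurd hk (hxy _ _)
          · have h1 := (hc2 i j hj).1 huv
            have h2 := hu.1 i rfl _ (Or.inr rfl) h1.symm
            constructor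
            · intro k hk a ha hca
              have hik : i + 1 = k := ix hk
              subst hik
              rw [← h2]
              exact hsame (i + 1) a i ha (Or.inl (by ring)) hca h1.symm
            · intro k hk
              exact absurd hk (hxy _ _)
        · rcases hny (p i) v hGuv.1 hMuv with rfl | rfl
          · have h1 := (hd2' (p i) j hj).1 huv
            have h2 := hu.2 i rfl _ (Or.inl rfl) h1.symm
            constructor
            · intro k hk
              exact absurd hk.symm (hxy _ _)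
            · intro k hk b hb hdb
              have hik : p i - 1 = p k := iy hk
              rw [← h2]
              exact hsame' k b (p i - 1) hb (Or.inr hik) hdb h1.symm
          · have h1 := (hd2 (p i) j hj).1 huv
            have h2 := hu.2 i rfl _ (Or.inr rfl) h1.symm
            constructor
            · intro k hk
              exact absurd hk.symm (hxy _ _)
            · intro k hk b hb hdb
              have hik : p i + 1 = p k := iy hk
              rw [← h2]
              exact hsame' k b (p i) hb (Or.inl (by rw [← hik]; ring)) hdb h1.symm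
    -- a starting vertex
    obtain ⟨v₀, hv₀⟩ := hcon.nonempty
    have hstart : ∃ w, Φ v₀ w := by
      rcases hcov v₀ with ⟨i, rfl⟩ | ⟨i, rfl⟩
      · by_cases h1 : c i = j
        · refine ⟨s i, fun k hk a ha hca => ?_, fun k hk => absurd hk (hxy _ _)⟩
          have hik : i = k := ix hk
          subst hik
          exact hsame i a i ha (Or.inr rfl) hca h1
        · refine ⟨s (i - 1), fun k hk a ha hca => ?_, fun k hk => absurd hk (hxy _ _)⟩
          have hik : i = k := ix hk
          subst hik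
          rcases ha with rfl | rfl
          · rfl
          · exact absurd hca h1
      · by_cases h1 : d (p i) = j
        · refine ⟨t (p i), fun k hk => absurd hk.symm (hxy _ _), fun k hk b hb hdb => ?_⟩
          have hik : i = k := p.injective (iy hk)
          subst hik
          exact hsame' i b (p i) hb (Or.inr rfl) hdb h1
        · refine ⟨t (p i - 1), fun k hk => absurd hk.symm (hxy _ _), fun k hk b hb hdb => ?_⟩
          have hik : i = k := p.injective (iy hk)
          subst hik
          rcases hb with rfl | rfl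
          · rfl
          · exact absurd hdb h1
    obtain ⟨w, hw⟩ := hstart
    have hall : ∀ v, v ∈ (D j).verts → Φ v w := by
      intro v hv
      have hr := hcon.preconnected ⟨v₀, hv₀⟩ ⟨v, hv⟩
      obtain ⟨q⟩ := hr
      have key : ∀ (a b : (D j).verts) (q : (D j).coe.Walk a b), Φ a.1 w → Φ b.1 w := by
        intro a b q
        induction q with
        | nil => exact fun hh => hh
        | cons hab _ ih => exact fun hh => ih (hstep _ _ w hab hh)
      exact key _ _ q hw
    refine ⟨w, fun i hi => ?_, fun i hi => ?_⟩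
    · have h1 : x i ∈ (D j).verts := by rw [← hi]; exact (hcv i).1
      exact (hall _ h1).1 i rfl i (Or.inr rfl) hi
    · have h1 : y i ∈ (D j).verts := by rw [← hi]; exact (hdv i).1
      have h2 := (hall _ h1).2 (p.symm i) (by rw [Equiv.apply_symm_apply])
      exact h2 i (Or.inr (by rw [Equiv.apply_symm_apply])) hi

/-- For every matching edge `e` there is a chain with `m` even and a chain with `m` odd. -/
theorem exists_chainCol {V : Type*} [Finite V] (G : SimpleGraph V) (M C₁ C₂ : G.Subgraph)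
    (h : IsPermutationGraph G M C₁ C₂) (hno : ¬ HasFaithfulCircuitCover G (wt M))
    (hrem : ∀ C : G.Subgraph, ¬ Removable G (wt M) C) {n : ℕ}
    (hn : 3 ≤ n) (x y : ZMod n → V) (p : Equiv.Perm (ZMod n)) (hx : Numb C₁ x) (hy : Numb C₂ y)
    (hM : ∀ i, M.Adj (x i) (y (p i))) (e : ZMod n) (β : Bool) :
    ∃ m c d, 1 ≤ m ∧ β = decide (m % 2 = 1) ∧ ChainCol p e m c d := by
  have mx : x e ∈ C₁.verts := by rw [← hx.2.1]; exact ⟨e, rfl⟩
  have my : y (p e) ∈ C₂.verts := by rw [← hy.2.1]; exact ⟨p e, rfl⟩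
  obtain ⟨ho1, ho2⟩ := odd_of_no G M C₁ C₂ h hno
  obtain ⟨κ₁, a1, a2⟩ := alt C₁ h.circuit₁ ho1 (x e) mx false
  obtain ⟨κ₂, b1, b2⟩ := alt C₂ h.circuit₂ ho2 (y (p e)) my β
  obtain ⟨F, col, hF, hc⟩ := fam G M C₁ C₂ h (x e) (y (p e)) (hM e) mx my β κ₁ κ₂ a1 a2 b1 b2
  obtain ⟨m, D, hm1, hinj, hD, hx0, hym, hm⟩ := main_chain G M C₁ C₂ h hrem (x e) (y (p e)) (hM e)
    F hF
  have e0 := col_chain hc hinj hD hx0 hym hm
  obtain ⟨c, d, hcd⟩ := exists_chainCol_aux G M C₁ C₂ h hn x y p hx hy hM e F hF m D hm1 hinj hD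
    hx0 hym hm
  exact ⟨m, c, d, hm1, e0, hcd⟩

end Pool.Agent.H77.GC
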