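import Mathlib
import Pool.Agent.H77.GC.Chain

set_option autoImplicit false

/-!
The sides of a matching bridge on the untouched members of a chain (MP_a46c6f_co).
-/

namespace Pool.Agent.H77.GC

open Pool.Agent.H64.Pent

variable {n : ℕ} {p : Equiv.Perm (ZMod n)} {e : ZMod n} {m : ℕ} {c d : ZMod n → ℕ}

/-- the edges of the member `j` have two ends -/
theorem parity_class [NeZero n] (p : Equiv.Perm (ZMod n)) (c d : ZMod n → ℕ) (j : ℕ)
    (s t : ZMod n → ZMod 2) :
    ∑ i, ((if c (i - 1) = j then s (i - 1) else 0) + (if c i = j then s i else 0) +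
      ((if d (p i - 1) = j then t (p i - 1) else 0) + (if d (p i) = j then t (p i) else 0))) = 0 := by
  have key : ∀ f : ZMod n → ZMod 2, ∑ i, (f (i - 1) + f i) = 0 := by
    intro f
    rw [Finset.sum_add_distrib]
    have h1 : ∑ i, f (i - 1) = ∑ i, f i := Equiv.sum_comp (Equiv.subRight (1 : ZMod n)) f
    rw [h1]
    exact CharTwo.add_self_eq_zero _
  rw [Finset.sum_add_distrib]
  have h1 := key (fun i => if c i = j then s i else 0)
  have h2 := key (fun i => if d i = j then t i else 0)
  have h3 := Equiv.sum_comp p (fun i => (if d (i - 1) = j then t (i - 1) else 0) +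
    (if d i = j then t i else 0))
  exact (congrArg₂ (· + ·) h1 (h3.trans h2)).trans (add_zero 0)

/-- the member `j` does not use an edge of `(a, b)` -/
def Untouched (c d : ZMod n → ℕ) (a b : ZMod n → ZMod 2) (j : ℕ) : Prop :=
  (∀ i, c i = j → a i = 0) ∧ ∀ i, d i = j → b i = 0

theorem side_eq [NeZero n] (h : ChainCol p e m c d) {a b s t : ZMod n → ZMod 2} {e' : ZMod n}
    (hS : Side p a b e' s t) {j : ℕ} (hU : Untouched c d a b j) {i : ZMod n} (hi : i ≠ e')
    {k l : ZMod n} (hk : k = i - 1 ∨ k = i) (hl : l = p i - 1 ∨ l = p i) (hc : c k = j)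
    (hd : d l = j) : s k = t l := by
  obtain ⟨v, h1, h2, h3, h4⟩ := hS.2.2 i hi
  have e1 : s k = v := by
    rcases hk with rfl | rfl
    · rw [h1, hU.1 _ hc]; simp
    · rw [h2, hU.1 _ hc]; simp
  have e2 : t l = v := by
    rcases hl with rfl | rfl
    · rw [h3, hU.2 _ hd]; simp
    · rw [h4, hU.2 _ hd]; simp
  rw [e1, e2]

/-- an untouched member does not contain the bridge `e' ≠ e` -/
theorem not_mem_of_untouched [NeZero n] (h : ChainCol p e m c d) (hm : 1 ≤ m)
    {a b s t : ZMod n → ZMod 2} {e' : ZMod n} (hS : Side p a b e' s t) {j : ℕ}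
    (hU : Untouched c d a b j) (he : e' ≠ e) :
    c (e' - 1) ≠ j ∧ c e' ≠ j ∧ d (p e' - 1) ≠ j ∧ d (p e') ≠ j := by
  classical
  by_contra hcon
  have hpar := parity_class p c d j s t
  have hterm : ∀ i, i ≠ e' → ((if c (i - 1) = j then s (i - 1) else 0) +
      (if c i = j then s i else 0) + ((if d (p i - 1) = j then t (p i - 1) else 0) +
      (if d (p i) = j then t (p i) else 0))) = (0 : ZMod 2) := by
    intro i hi
    by_cases hie : i = e
    · subst hie
      obtain ⟨v, h1, h2, h3, h4⟩ := hS.2.2 i hi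
      obtain ⟨x1, x2⟩ := h.cx
      obtain ⟨y1, y2⟩ := h.cy
      by_cases hj0 : j = 0
      · subst hj0
        rw [if_pos x1, if_pos x2, if_neg (by omega), if_neg (by omega), h1, h2,
          hU.1 _ x1, hU.1 _ x2]
        simp only [add_zero, one_mul]
        exact CharTwo.add_self_eq_zero v
      · rw [if_neg (by omega), if_neg (by omega)]
        by_cases hjm : j = m
        · subst hjm
          rw [if_pos y1, if_pos y2, h3, h4, hU.2 _ y1, hU.2 _ y2]
          simp only [add_zero, zero_add, one_mul]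
          exact CharTwo.add_self_eq_zero v
        · rw [if_neg (by omega), if_neg (by omega)]
          simp
    · obtain ⟨k, hk, hc, hd⟩ := h.loc i hie
      have hs := fun (u l : ZMod n) (hu : u = i - 1 ∨ u = i) (hl : l = p i - 1 ∨ l = p i)
        (h1 : c u = j) (h2 : d l = j) => side_eq h hS hU hi hu hl h1 h2
      have two : ∀ z : ZMod 2, z + z = 0 := fun z => CharTwo.add_self_eq_zero z
      by_cases hj : j = k ∨ j = k + 1
      · rcases hc with ⟨c1, c2⟩ | ⟨c1, c2⟩ <;> rcases hd with ⟨d1, d2⟩ | ⟨d1, d2⟩ <;>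
          rcases hj with rfl | rfl
        · rw [if_pos c1, if_neg (by omega), if_pos d1, if_neg (by omega),
            hs _ _ (Or.inl rfl) (Or.inl rfl) c1 d1]
          simp only [add_zero, zero_add]
          exact two _
        · rw [if_neg (by omega), if_pos c2, if_neg (by omega), if_pos d2,
            hs _ _ (Or.inr rfl) (Or.inr rfl) c2 d2]
          simp only [add_zero, zero_add]
          exact two _
        · rw [if_pos c1, if_neg (by omega), if_neg (by omega), if_pos d2,
            hs _ _ (Or.inl rfl) (Or.inr rfl) c1 d2]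
          simp only [add_zero, zero_add]
          exact two _
        · rw [if_neg (by omega), if_pos c2, if_pos d1, if_neg (by omega),
            hs _ _ (Or.inr rfl) (Or.inl rfl) c2 d1]
          simp only [add_zero, zero_add]
          exact two _
        · rw [if_neg (by omega), if_pos c2, if_pos d1, if_neg (by omega),
            hs _ _ (Or.inr rfl) (Or.inl rfl) c2 d1]
          simp only [add_zero, zero_add]
          exact two _
        · rw [if_pos c1, if_neg (by omega), if_neg (by omega), if_pos d2,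
            hs _ _ (Or.inl rfl) (Or.inr rfl) c1 d2]
          simp only [add_zero, zero_add]
          exact two _
        · rw [if_neg (by omega), if_pos c2, if_neg (by omega), if_pos d2,
            hs _ _ (Or.inr rfl) (Or.inr rfl) c2 d2]
          simp only [add_zero, zero_add]
          exact two _
        · rw [if_pos c1, if_neg (by omega), if_pos d1, if_neg (by omega),
            hs _ _ (Or.inl rfl) (Or.inl rfl) c1 d1]
          simp only [add_zero, zero_add]
          exact two _
      · push Not at hj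
        rw [if_neg (by omega), if_neg (by omega), if_neg (by omega), if_neg (by omega)]
        simp
  rw [Finset.sum_eq_single e' (fun i _ hi => hterm i hi) (by simp)] at hpar
  obtain ⟨k, hk, hc, hd⟩ := h.loc e' he
  obtain ⟨s1, s2, t1, t2⟩ := hS.2.1
  rw [s1, s2, t1, t2] at hpar
  have hj : j = k ∨ j = k + 1 := by
    by_contra hj
    push Not at hj
    exact hcon (by omega)
  rcases hc with ⟨c1, c2⟩ | ⟨c1, c2⟩ <;> rcases hj with rfl | rfl <;> simp [c1, c2] at hpar

/-- `s` and `t` are constant on an untouched member -/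
theorem const_of_untouched [NeZero n] (h : ChainCol p e m c d) (hm : 1 ≤ m)
    {a b s t : ZMod n → ZMod 2} {e' : ZMod n} (hS : Side p a b e' s t) {j : ℕ} (hj : j ≤ m)
    (hU : Untouched c d a b j) :
    ∃ v, (∀ i, c i = j → s i = v) ∧ ∀ i, d i = j → t i = v := by
  refine h.conn j hj s t ?_ ?_ ?_
  · intro i hi k l hk hl hc hd
    by_cases hie : i = e'
    · subst hie
      have := not_mem_of_untouched h hm hS hU hi
      exfalso
      rcases hk with rfl | rfl
      · exact this.1 hc
      · exact this.2.1 hc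
    · exact side_eq h hS hU hie hk hl hc hd
  · rintro rfl
    by_cases he : e = e'
    · subst he
      rw [hS.2.1.1, hS.2.1.2.1]
    · obtain ⟨v, h1, h2, h3, h4⟩ := hS.2.2 e he
      rw [h1, h2, hU.1 _ h.cx.1, hU.1 _ h.cx.2]
  · rintro rfl
    by_cases he : e = e'
    · subst he
      rw [hS.2.1.2.2.1, hS.2.1.2.2.2]
    · obtain ⟨v, h1, h2, h3, h4⟩ := hS.2.2 e he
      rw [h3, h4, hU.2 _ h.cy.1, hU.2 _ h.cy.2]

/-- the constants of two consecutive untouched members agree -/
theorem const_succ [NeZero n] (h : ChainCol p e m c d) (hm : 1 ≤ m)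
    {a b s t : ZMod n → ZMod 2} {e' : ZMod n} (hS : Side p a b e' s t) {j : ℕ} (hj : j < m)
    (hU : Untouched c d a b j) (hU' : Untouched c d a b (j + 1)) {v w : ZMod 2}
    (hv : ∀ i, c i = j → s i = v) (hw : ∀ i, c i = j + 1 → s i = w) : v = w := by
  obtain ⟨i, hi, hc, hd⟩ := h.lev j hj
  have hie : i ≠ e' := by
    rintro rfl
    have := not_mem_of_untouched h hm hS hU hi
    rcases hc with ⟨c1, _⟩ | ⟨_, c2⟩
    · exact this.1 c1
    · exact this.2.1 c2
  obtain ⟨z, h1, h2, -, -⟩ := hS.2.2 i hie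
  rcases hc with ⟨c1, c2⟩ | ⟨c1, c2⟩
  · rw [← hv _ c1, ← hw _ c2, h1, h2, hU.1 _ c1, hU'.1 _ c2]
  · rw [← hv _ c2, ← hw _ c1, h1, h2, hU.1 _ c2, hU'.1 _ c1]

/-- consecutive untouched members lie on one side -/
theorem const_range [NeZero n] (h : ChainCol p e m c d) (hm : 1 ≤ m)
    {a b s t : ZMod n → ZMod 2} {e' : ZMod n} (hS : Side p a b e' s t) {k l : ℕ} (hkl : k ≤ l)
    (hl : l ≤ m) (hU : ∀ j, k ≤ j → j ≤ l → Untouched c d a b j) :
    ∃ v, ∀ j, k ≤ j → j ≤ l → (∀ i, c i = j → s i = v) ∧ ∀ i, d i = j → t i = v := by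
  induction l, hkl using Nat.le_induction with
  | base =>
    obtain ⟨v, h1, h2⟩ := const_of_untouched h hm hS hl (hU k le_rfl le_rfl)
    refine ⟨v, fun j h3 h4 => ?_⟩
    have : j = k := le_antisymm h4 h3
    subst this
    exact ⟨h1, h2⟩
  | succ l hkl ih =>
    obtain ⟨v, hv⟩ := ih (by omega) (fun j h1 h2 => hU j h1 (by omega))
    obtain ⟨w, h1, h2⟩ := const_of_untouched h hm hS hl (hU (l + 1) (by omega) le_rfl)
    have hvw : v = w := const_succ h hm hS (by omega) (hU l hkl (by omega))
      (hU (l + 1) (by omega) le_rfl) (hv l hkl le_rfl).1 h1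
    refine ⟨v, fun j h3 h4 => ?_⟩
    rcases Nat.lt_or_ge j (l + 1) with h5 | h5
    · exact hv j h3 (by omega)
    · have : j = l + 1 := by omega
      subst this
      rw [hvw]
      exact ⟨h1, h2⟩

/-- every member has an edge on `C₁` -/
theorem exists_c [NeZero n] (h : ChainCol p e m c d) (hm : 1 ≤ m) {j : ℕ} (hj : j ≤ m) :
    ∃ i, c i = j := by
  rcases Nat.lt_or_ge j m with h1 | h1
  · obtain ⟨i, hi, hc, hd⟩ := h.lev j h1
    rcases hc with ⟨c1, _⟩ | ⟨_, c2⟩
    · exact ⟨_, c1⟩
    · exact ⟨_, c2⟩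
  · have : j = (m - 1) + 1 := by omega
    obtain ⟨i, hi, hc, hd⟩ := h.lev (m - 1) (by omega)
    rcases hc with ⟨_, c2⟩ | ⟨c1, _⟩
    · exact ⟨_, c2.trans this.symm⟩
    · exact ⟨_, c1.trans this.symm⟩

/-- every member has an edge on `C₂` -/
theorem exists_d [NeZero n] (h : ChainCol p e m c d) (hm : 1 ≤ m) {j : ℕ} (hj : j ≤ m) :
    ∃ i, d i = j := by
  rcases Nat.lt_or_ge j m with h1 | h1
  · obtain ⟨i, hi, hc, hd⟩ := h.lev j h1
    rcases hd with ⟨c1, _⟩ | ⟨_, c2⟩
    · exact ⟨_, c1⟩
    · exact ⟨_, c2⟩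
  · have : j = (m - 1) + 1 := by omega
    obtain ⟨i, hi, hc, hd⟩ := h.lev (m - 1) (by omega)
    rcases hd with ⟨_, c2⟩ | ⟨c1, _⟩
    · exact ⟨_, c2.trans this.symm⟩
    · exact ⟨_, c1.trans this.symm⟩

end Pool.Agent.H77.GC
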