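import Mathlib
import Pool.Agent.H77.GC.Side

set_option autoImplicit false

/-!
The values of a side on the two hubs of a pair of consecutive members of a chain (MP_a46c6f_co).
-/

namespace Pool.Agent.H77.GC

open Pool.Agent.H64.Pent

variable {n : ℕ} {p : Equiv.Perm (ZMod n)} {e : ZMod n} {m : ℕ} {c d : ZMod n → ℕ}

/-- Let `(a, b)` use only edges of the members `j`, `j + 1` and no edge at `e`, and let `e'` be a
bridge with side `(s, t)`. Then all members before `j` have the value `s e`, all members after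
`j + 1` have the value `t (p e)`; if `e' = e` these are `1` and `0`; otherwise they are equal and
`e'` lies on both members `j`, `j + 1`. -/
theorem hub_values [NeZero n] (h : ChainCol p e m c d) {a b s t : ZMod n → ZMod 2} {e' : ZMod n}
    (hS : Side p a b e' s t) {j : ℕ} (hj : j < m)
    (hU : ∀ k, k ≤ m → k ≠ j → k ≠ j + 1 → Untouched c d a b k)
    (ha : a (e - 1) = 0 ∧ a e = 0) (hb : b (p e - 1) = 0 ∧ b (p e) = 0) :
    (s (e - 1) = s e ∧ t (p e - 1) = t (p e)) ∧
    (∀ k, k < j → (∀ i, c i = k → s i = s e) ∧ ∀ i, d i = k → t i = s e) ∧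
    (∀ k, j + 1 < k → k ≤ m → (∀ i, c i = k → s i = t (p e)) ∧ ∀ i, d i = k → t i = t (p e)) ∧
    (e' = e → s e = 1 ∧ t (p e) = 0) ∧
    (e' ≠ e → s e = t (p e) ∧
      ((c (e' - 1) = j ∧ c e' = j + 1) ∨ (c (e' - 1) = j + 1 ∧ c e' = j)) ∧
      ((d (p e' - 1) = j ∧ d (p e') = j + 1) ∨ (d (p e' - 1) = j + 1 ∧ d (p e') = j))) := by
  have hm : 1 ≤ m := by omega
  refine ⟨?_, ?_, ?_, ?_, ?_⟩
  · by_cases he : e = e'
    · subst he
      obtain ⟨h1, h2, h3, h4⟩ := hS.2.1
      exact ⟨h1.trans h2.symm, h3.trans h4.symm⟩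
    · obtain ⟨v, h1, h2, h3, h4⟩ := hS.2.2 e he
      rw [h1, h2, h3, h4, ha.1, ha.2, hb.1, hb.2]
      exact ⟨rfl, rfl⟩
  · intro k hk
    obtain ⟨v, hv⟩ := const_range h hm hS (k := 0) (l := j - 1) (Nat.zero_le _) (by omega)
      (fun i _ hi => hU i (by omega) (by omega) (by omega))
    have h0 : s e = v := (hv 0 le_rfl (Nat.zero_le _)).1 e h.cx.2
    rw [h0]
    exact hv k (Nat.zero_le _) (by omega)
  · intro k hk hkm
    obtain ⟨v, hv⟩ := const_range h hm hS (k := j + 2) (l := m) (by omega) le_rfl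
      (fun i hi1 hi2 => hU i hi2 (by omega) (by omega))
    have h0 : t (p e) = v := (hv m (by omega) le_rfl).2 (p e) h.cy.2
    rw [h0]
    exact hv k (by omega) hkm
  · rintro rfl
    exact ⟨hS.2.1.2.1, hS.2.1.2.2.2⟩
  · intro he
    have h1 : s e = t (p e) := by
      obtain ⟨v, h1, h2, h3, h4⟩ := hS.2.2 e (Ne.symm he)
      rw [h2, h4, ha.2, hb.2]
    refine ⟨h1, ?_⟩
    obtain ⟨k, hk, hc, hd⟩ := h.loc e' he
    have hkj : k = j := by
      by_contra hkj
      by_cases h2 : k = j + 1
      · have := not_mem_of_untouched h hm hS (hU (k + 1) (by omega) (by omega) (by omega)) he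
        omega
      · have := not_mem_of_untouched h hm hS (hU k (by omega) hkj h2) he
        omega
    subst hkj
    exact ⟨hc, hd⟩

/-- A member `0 < j < m` is an alternating edge set. -/
theorem alt_member (h : ChainCol p e m c d) {j : ℕ} (h0 : 0 < j) (hj : j < m) :
    Alt p (fun i => if c i = j then 1 else 0) (fun i => if d i = j then 1 else 0) := by
  intro i
  by_cases hi : i = e
  · subst hi
    left
    obtain ⟨x1, x2⟩ := h.cx
    obtain ⟨y1, y2⟩ := h.cy
    refine ⟨if_neg (by omega), if_neg (by omega), if_neg (by omega), if_neg (by omega)⟩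
  · obtain ⟨k, hk, hc, hd⟩ := h.loc i hi
    by_cases hkj : j = k ∨ j = k + 1
    · right
      constructor
      · rcases hc with ⟨c1, c2⟩ | ⟨c1, c2⟩ <;> rcases hkj with rfl | rfl <;> simp [c1, c2]
      · rcases hd with ⟨c1, c2⟩ | ⟨c1, c2⟩ <;> rcases hkj with rfl | rfl <;> simp [c1, c2]
    · push Not at hkj
      left
      refine ⟨if_neg (by omega), if_neg (by omega), if_neg (by omega), if_neg (by omega)⟩

/-- The members with odd number together are an alternating edge set if `m` is even. -/
theorem alt_odd (h : ChainCol p e m c d) (hm : m % 2 = 0) :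
    Alt p (fun i => if c i % 2 = 1 then 1 else 0) (fun i => if d i % 2 = 1 then 1 else 0) := by
  intro i
  by_cases hi : i = e
  · subst hi
    left
    obtain ⟨x1, x2⟩ := h.cx
    obtain ⟨y1, y2⟩ := h.cy
    refine ⟨if_neg (by omega), if_neg (by omega), if_neg (by omega), if_neg (by omega)⟩
  · obtain ⟨k, hk, hc, hd⟩ := h.loc i hi
    right
    have two : (1 : ZMod 2) + 0 = 1 := by decide
    have two' : (0 : ZMod 2) + 1 = 1 := by decide
    constructor
    · show (if c (i - 1) % 2 = 1 then (1 : ZMod 2) else 0) + (if c i % 2 = 1 then 1 else 0) = 1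
      rcases hc with ⟨c1, c2⟩ | ⟨c1, c2⟩ <;> rcases Nat.mod_two_eq_zero_or_one k with h1 | h1
      · rw [if_neg (by omega), if_pos (by omega), two']
      · rw [if_pos (by omega), if_neg (by omega), two]
      · rw [if_pos (by omega), if_neg (by omega), two]
      · rw [if_neg (by omega), if_pos (by omega), two']
    · show (if d (p i - 1) % 2 = 1 then (1 : ZMod 2) else 0) +
        (if d (p i) % 2 = 1 then 1 else 0) = 1
      rcases hd with ⟨c1, c2⟩ | ⟨c1, c2⟩ <;> rcases Nat.mod_two_eq_zero_or_one k with h1 | h1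
      · rw [if_neg (by omega), if_pos (by omega), two']
      · rw [if_pos (by omega), if_neg (by omega), two]
      · rw [if_pos (by omega), if_neg (by omega), two]
      · rw [if_neg (by omega), if_pos (by omega), two']

end Pool.Agent.H77.GC
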